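import Pool.Agent.Y795.PiH.Stm

/-!
# Nonvanishing of the Hankel determinant at all rational points (task PH11)
-/

set_option autoImplicit false

open Polynomial

namespace Pool.Agent.Y430.PiH

open Pool.Agent.Y795.PiH Pool.Agent.H326R2.Pi

/-- `Nz` is compatible with finite sums -/
theorem Nz_sum (p : ℕ) (hp : 1 ≤ p) (z : ℚ) {ι : Type*} (s : Finset ι) (f : ι → ℚ[X]) :
    Nz p z (∑ j ∈ s, f j) = ∑ j ∈ s, Nz p z (f j) := by
  simp only [← NzL_apply p hp, map_sum]

/-- a nonzero rational polynomial in the kernel -/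
theorem exists_rat (p : ℕ) (hp : 1 ≤ p) (z : ℚ) (h : DET p z = 0) :
    ∃ V : ℚ[X], V ≠ 0 ∧ V.natDegree ≤ p ∧ ∀ i ≤ p, Nz p z (V * X ^ i) = 0 := by
  unfold DET at h
  obtain ⟨v, hv, hMv⟩ := Matrix.exists_mulVec_eq_zero_iff.2 h
  refine ⟨∑ j : Fin (p + 1), C (v j) * X ^ (j : ℕ), ?_, ?_, ?_⟩
  · intro h0
    apply hv
    funext j
    have h1 := congrArg (fun P : ℚ[X] => P.coeff (j : ℕ)) h0
    simp only [finset_sum_coeff, coeff_C_mul, coeff_X_pow, coeff_zero] at h1
    rw [Finset.sum_eq_single j] at h1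
    · simpa using h1
    · intro b _ hb
      rw [if_neg (fun e => hb (Fin.ext e.symm))]; simp
    · intro hj; exact absurd (Finset.mem_univ j) hj
  · refine natDegree_sum_le_of_forall_le _ _ fun j _ => ?_
    refine (natDegree_C_mul_X_pow_le _ _).trans ?_
    omega
  · intro i hi
    have h1 := congrFun hMv ⟨i, by omega⟩
    simp only [Matrix.mulVec, dotProduct, Matrix.of_apply, Pi.zero_apply] at h1
    rw [Finset.sum_mul, Nz_sum p hp]
    rw [← h1]
    refine Finset.sum_congr rfl fun j _ => ?_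
    rw [mul_assoc, ← pow_add, Nz_C_mul hp, add_comm (j : ℕ) i]
    ring

/-- a primitive integral polynomial in the kernel -/
theorem exists_int (p : ℕ) (hp : 1 ≤ p) (z : ℚ) (h : DET p z = 0) :
    ∃ V : ℤ[X], V.IsPrimitive ∧ V.natDegree ≤ p ∧ ∀ i ≤ p, Nz p z (iq (V * X ^ i)) = 0 := by
  obtain ⟨V0, hV0, hdeg, hN⟩ := exists_rat p hp z h
  obtain ⟨b, hb⟩ := IsLocalization.integerNormalization_map_to_map (nonZeroDivisors ℤ) V0
  set V1 := IsLocalization.integerNormalization (nonZeroDivisors ℤ) V0 with hV1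
  have hb0 : ((b : ℤ) : ℚ) ≠ 0 := by
    have := nonZeroDivisors.coe_ne_zero b
    exact_mod_cast this
  have hmap : V1.map (Int.castRingHom ℚ) = C ((b : ℤ) : ℚ) * V0 := by
    have e : algebraMap ℤ ℚ = Int.castRingHom ℚ := rfl
    rw [← e, hb]
    ext n
    simp
  have hV1ne : V1 ≠ 0 := by
    intro h0
    rw [h0, Polynomial.map_zero] at hmap
    rcases mul_eq_zero.1 hmap.symm with h1 | h1
    · exact hb0 (by simpa using h1)
    · exact hV0 h1
  have hV1deg : V1.natDegree ≤ p := by
    have h1 : (V1.map (Int.castRingHom ℚ)).natDegree = V1.natDegree :=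
      natDegree_map_eq_of_injective (RingHom.injective_int _) _
    rw [← h1, hmap]
    exact (natDegree_C_mul_le _ _).trans hdeg
  refine ⟨V1.primPart, V1.isPrimitive_primPart, ?_, ?_⟩
  · rw [natDegree_primPart]; exact hV1deg
  · intro i hi
    have hc : ((V1.content : ℤ) : ℚ) ≠ 0 := by
      have : V1.content ≠ 0 := by rwa [Ne, content_eq_zero_iff]
      exact_mod_cast this
    have h1 : iq (V1 * X ^ i) = C ((V1.content : ℤ) : ℚ) * iq (V1.primPart * X ^ i) := by
      conv_lhs => rw [V1.eq_C_content_mul_primPart]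
      unfold iq
      simp only [Polynomial.map_mul, Polynomial.map_pow, Polynomial.map_X, Polynomial.map_C]
      rw [mul_assoc]; rfl
    have h2 : iq (V1 * X ^ i) = C ((b : ℤ) : ℚ) * (V0 * X ^ i) := by
      unfold iq
      rw [Polynomial.map_mul, hmap, Polynomial.map_pow, Polynomial.map_X, mul_assoc]
    have h3 : Nz p z (iq (V1 * X ^ i)) = 0 := by
      rw [h2, Nz_C_mul hp, hN i hi, mul_zero]
    rw [h1, Nz_C_mul hp] at h3
    exact (mul_eq_zero.1 h3).resolve_left hc

/-- **PH11**: nonvanishing of the determinant at all rational points -/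
theorem nv (h2 : S_lev2) (h1 : S_lev1) (hk : S_ker) (hq : S_quad) : S_nv := by
  intro p hp hp6 hpm z hD
  haveI : Fact p.Prime := ⟨hp⟩
  have hp1 : 1 ≤ p := hp.one_lt.le
  obtain ⟨V, hprim, hdeg, hN⟩ := exists_int p hp1 z hD
  -- the two coefficients
  obtain ⟨u, v, huv, key⟩ : ∃ u v : ZMod p, (u ≠ 0 ∨ v ≠ 0) ∧
      ∀ (k n : ℤ) (d : ℕ) (β : ZMod p) (t : ℚ), ¬ p ∣ d → (k : ℚ) * z + t = 0 →
        (p * t) * d = n → (n : ZMod p) = ((-1) ^ ((p - 1) / 2) * β) * d →
        u * k + v * (6 * β) = 0 := by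
    have h6 : (6 : ZMod p) ≠ 0 := by
      intro h
      have h' : ((6 : ℕ) : ZMod p) = 0 := by exact_mod_cast h
      rw [ZMod.natCast_eq_zero_iff] at h'
      have := Nat.le_of_dvd (by norm_num) h'
      omega
    have hsq : ((-1 : ZMod p) ^ ((p - 1) / 2)) ^ 2 = 1 := by
      rw [← pow_mul, mul_comm, pow_mul]; simp
    have hs : ((-1 : ZMod p) ^ ((p - 1) / 2)) ≠ 0 := by
      intro h; rw [h] at hsq; simp at hsq
    have main : ∀ (k n : ℤ) (d : ℕ) (t : ℚ), (k : ℚ) * z + t = 0 → (p * t) * d = n →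
        (p : ℤ) * k * z.num * d + z.den * n = 0 := by
      intro k n d t e1 e2
      have hden : (z.den : ℚ) ≠ 0 := by exact_mod_cast z.den_ne_zero
      have e3 : (z.num : ℚ) = z * z.den := by
        rw [Rat.mul_den_eq_num]
      have : ((p : ℤ) * k * z.num * d + z.den * n : ℚ) = 0 := by
        push_cast
        rw [← e2, e3]
        have : (p : ℚ) * k * (z * z.den) * d + z.den * (p * t * d) =
          p * d * z.den * (k * z + t) := by ring
        rw [this, e1, mul_zero]
      exact_mod_cast this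
    by_cases hb : p ∣ z.den
    · obtain ⟨b', hb'⟩ := hb
      have ha : (z.num : ZMod p) ≠ 0 := by
        intro h
        rw [ZMod.intCast_zmod_eq_zero_iff_dvd] at h
        have hco := z.reduced
        have h3 : p ∣ z.num.natAbs := Int.natCast_dvd.1 h
        have h4 : p ∣ Nat.gcd z.num.natAbs z.den := Nat.dvd_gcd h3 ⟨b', hb'⟩
        rw [hco] at h4
        exact hp.one_lt.ne' (Nat.dvd_one.1 h4)
      refine ⟨6 * z.num, b' * (-1) ^ ((p - 1) / 2), Or.inl (mul_ne_zero h6 ha), ?_⟩
      intro k n d β t hd e1 e2 e3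
      have e4 := main k n d t e1 e2
      have hd0 : (d : ZMod p) ≠ 0 := by
        rwa [Ne, ZMod.natCast_eq_zero_iff]
      have e5 : k * z.num * d + b' * n = 0 := by
        have : (p : ℤ) * (k * z.num * d + b' * n) = 0 := by
          rw [← e4, hb']; push_cast; ring
        exact (mul_eq_zero.1 this).resolve_left (by exact_mod_cast hp.ne_zero)
      have e6 := congrArg (Int.cast : ℤ → ZMod p) e5
      push_cast at e6
      rw [e3] at e6
      have e7 : (d : ZMod p) * ((z.num : ZMod p) * k + b' * (-1) ^ ((p - 1) / 2) * β) = 0 := by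
        linear_combination e6
      have e8 := (mul_eq_zero.1 e7).resolve_left hd0
      linear_combination 6 * e8
    · refine ⟨0, 1, Or.inr one_ne_zero, ?_⟩
      intro k n d β t hd e1 e2 e3
      have e4 := main k n d t e1 e2
      have hd0 : (d : ZMod p) ≠ 0 := by
        rwa [Ne, ZMod.natCast_eq_zero_iff]
      have hb0 : (z.den : ZMod p) ≠ 0 := by
        rwa [Ne, ZMod.natCast_eq_zero_iff]
      have e6 := congrArg (Int.cast : ℤ → ZMod p) e4
      push_cast at e6
      rw [ZMod.natCast_self, e3] at e6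
      have e7 : (z.den : ZMod p) * (-1) ^ ((p - 1) / 2) * d * β = 0 := by
        linear_combination e6
      have e8 := (mul_eq_zero.1 e7).resolve_left (mul_ne_zero (mul_ne_zero hb0 hs) hd0)
      rw [e8]; ring
  obtain ⟨hq1, hq2⟩ := hq p hp6 hpm u v huv
  have hzero : ip p V = 0 := by
    refine hk p (by omega) (ip p V) (126 * u - 2375 * v) (-692 * u + 13044 * v)
      (3129 * u - 58980 * v) ((natDegree_map_le).trans hdeg) ?_ hq1 hq2
    intro i hi
    have hR : (V * X ^ i).natDegree ≤ 2 * p := by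
      refine natDegree_mul_le.trans ?_
      rw [natDegree_X_pow]; omega
    have hip : ip p (V * X ^ i) = ip p V * X ^ i := by
      unfold ip
      rw [Polynomial.map_mul, Polynomial.map_pow, Polynomial.map_X]
    obtain ⟨k, G, hkf, hG, hLL, n, d, hd, hn, hnd⟩ := h2 p (by omega) (V * X ^ i) hR
    obtain ⟨e1, e2⟩ := h1 p (by omega) G _ _ _ _ hG hLL
    have hNz := hN i hi
    unfold Nz at hNz
    rw [hkf] at hNz
    have e3 := key k n d _ _ hd hNz hn hnd
    rw [e1, e2, hip] at e3
    linear_combination e3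
  have hdvd : C (p : ℤ) ∣ V := by
    rw [C_dvd_iff_dvd_coeff]
    intro n
    have := congrArg (fun P : (ZMod p)[X] => P.coeff n) hzero
    simp only [ip, coeff_map, coeff_zero, eq_intCast] at this
    exact (ZMod.intCast_zmod_eq_zero_iff_dvd _ _).1 this
  have hunit := hprim _ hdvd
  exact (Nat.prime_iff_prime_int.1 hp).not_unit hunit

end Pool.Agent.Y430.PiH
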